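import Pool.Agent.Lib.KAnnih.Theory
import Pool.Agent.Lib.PolyTime.F2

/-!
# The algorithm for annihilation-like games
-/

set_option autoImplicit false

namespace Pool.Agent.KAnnih

open Pool.Agent.PolyTime

/-- a move: the vertex, the move vector, and the characteristic vector of the set of followers -/
abbrev Mov : Type := ℕ × List Bool × List Bool

/-- is there `w` in the span of `B` such that `m + w` has a token on the vertex of the move? -/
def hits (B : List (List Bool)) (p : Mov) : Bool := bit p.2.1 p.1 || B.any fun b => bit b p.1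

/-- membership in `NW` -/
def inNW (M : List Mov) (B : List (List Bool)) (y : List Bool) : Bool :=
  M.any fun p => hits B p && inSpan B (xorV y p.2.1)

/-- the vertices that must not carry a token -/
def bads (M : List Mov) (idx : List ℕ) (B : List (List Bool)) (z : List Bool) : List ℕ :=
  idx.filter fun u => M.any fun p => decide (p.1 = u) && !inNW M B (xorV z p.2.1)

/-- try the class of `z` -/
def tryCand (M : List Mov) (idx : List ℕ) (B : List (List Bool)) (z : List Bool) :
    Option (List Bool) :=
  bif inSpan B z then none else solve (bads M idx B z) B z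

/-- the vectors found in one round -/
def found (M : List Mov) (idx : List ℕ) (B : List (List Bool)) : List (List Bool) :=
  (M ×ˢ M).flatMap fun q => (tryCand M idx B (xorV q.1.2.1 q.2.2.1)).toList

/-- one round -/
def round (M : List Mov) (idx : List ℕ) (B : List (List Bool)) : List (List Bool) :=
  (found M idx B).take 1 ++ B

/-- spanning list of `V0` -/
def basis (M : List Mov) (idx : List ℕ) : List (List Bool) := (round M idx)^[idx.length] []

/-- a move from `s` to `V0` -/
def winMove (M : List Mov) (B : List (List Bool)) (s : List Bool) : Option Mov :=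
  M.find? fun p => bit s p.1 && inSpan B (xorV s p.2.1)

/-- a move from `s` to a position outside of `V0` from which there is no move to `V0` -/
def drawMove (M : List Mov) (B : List (List Bool)) (s : List Bool) : Option Mov :=
  M.find? fun p => bit s p.1 && !inSpan B (xorV s p.2.1) &&
    !(winMove M B (xorV s p.2.1)).isSome

/-- the output string -/
def answerStr (M : List Mov) (idx : List ℕ) (B : List (List Bool)) (s : List Bool) : List Bool :=
  bif inSpan B s then [true, true] else
    match winMove M B s with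
    | some p => true :: false :: (idx.map (fun i => decide (i = p.1)) ++ p.2.2)
    | none =>
      match drawMove M B s with
      | some p => false :: false :: (idx.map (fun i => decide (i = p.1)) ++ p.2.2)
      | none => []

section spec

variable {n : ℕ} {M : List Mov} {Mv : Fin n → Set (Fin n → ZMod 2)}

/-- the list `M` describes the sets `Mv u` -/
structure Describes (n : ℕ) (M : List Mov) (Mv : Fin n → Set (Fin n → ZMod 2)) : Prop where
  lt : ∀ p ∈ M, p.1 < n
  len : ∀ p ∈ M, p.2.1.length = n
  mem : ∀ (u : Fin n) (m : Fin n → ZMod 2), m ∈ Mv u ↔ ∃ p ∈ M, p.1 = u.val ∧ toV n p.2.1 = m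

theorem bit_eq_false_of_le {l : List Bool} {i : ℕ} (h : l.length ≤ i) : bit l i = false := by
  simp [bit, List.getD_eq_getElem?_getD, List.getElem?_eq_none h]

theorem toV_apply_ne_zero {l : List Bool} {u : Fin n} : toV n l u ≠ 0 ↔ bit l u.val = true := by
  unfold toV
  cases bit l u.val <;> simp

theorem length_xorV {a b : List Bool} (ha : a.length = n) (hb : b.length = n) :
    (xorV a b).length = n := by
  simp [xorV, ha, hb]

theorem hits_iff {B : List (List Bool)} {p : Mov} (hp : p.1 < n) :
    hits B p = true ↔ ∃ w ∈ spanOf n B, (toV n p.2.1 + w) ⟨p.1, hp⟩ ≠ 0 := by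
  constructor
  · intro h
    by_cases h1 : bit p.2.1 p.1 = true
    · refine ⟨0, Submodule.zero_mem _, ?_⟩
      rw [add_zero]
      exact toV_apply_ne_zero.mpr h1
    · rw [hits, Bool.or_eq_true, List.any_eq_true] at h
      obtain ⟨b, hb, hbit⟩ := h.resolve_left h1
      refine ⟨toV n b, Submodule.subset_span ⟨b, hb, rfl⟩, ?_⟩
      have h2 : toV n p.2.1 ⟨p.1, hp⟩ = 0 := by
        by_contra hcon
        exact h1 (toV_apply_ne_zero.mp hcon)
      rw [Pi.add_apply, h2, zero_add]
      exact toV_apply_ne_zero.mpr hbit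
  · rintro ⟨w, hw, hne⟩
    rw [hits, Bool.or_eq_true, List.any_eq_true]
    by_contra hcon
    push Not at hcon
    obtain ⟨h1, h2⟩ := hcon
    have h3 : toV n p.2.1 ⟨p.1, hp⟩ = 0 := by
      by_contra hcon
      exact h1 (toV_apply_ne_zero.mp hcon)
    have h4 : ∀ w ∈ spanOf n B, w ⟨p.1, hp⟩ = 0 := by
      intro w hw
      refine Submodule.span_induction ?_ ?_ ?_ ?_ hw
      · rintro _ ⟨b, hb, rfl⟩
        by_contra hcon
        exact h2 b hb (toV_apply_ne_zero.mp hcon)
      · rfl
      · intro x y _ _ hx hy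
        rw [Pi.add_apply, hx, hy, add_zero]
      · intro a x _ hx
        rw [Pi.smul_apply, hx, smul_zero]
    apply hne
    rw [Pi.add_apply, h3, h4 w hw, add_zero]

theorem inNW_iff (hM : Describes n M Mv) {B : List (List Bool)} (hB : ∀ b ∈ B, b.length = n)
    {y : List Bool} (hy : y.length = n) :
    inNW M B y = true ↔ toV n y ∈ NW Mv (spanOf n B) := by
  rw [inNW, List.any_eq_true]
  constructor
  · rintro ⟨p, hp, h⟩
    rw [Bool.and_eq_true] at h
    obtain ⟨w, hw, hne⟩ := (hits_iff (hM.lt p hp)).mp h.1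
    have h2 := (inSpan_iff hB (length_xorV hy (hM.len p hp))).mp h.2
    rw [toV_xorV hy (hM.len p hp)] at h2
    exact ⟨⟨p.1, hM.lt p hp⟩, toV n p.2.1, (hM.mem _ _).mpr ⟨p, hp, rfl, rfl⟩, ⟨w, hw, hne⟩, h2⟩
  · rintro ⟨u, m, hm, ⟨w, hw, hne⟩, h⟩
    obtain ⟨p, hp, hpu, rfl⟩ := (hM.mem _ _).mp hm
    have hu : u = ⟨p.1, hM.lt p hp⟩ := Fin.ext hpu.symm
    subst hu
    refine ⟨p, hp, ?_⟩
    rw [Bool.and_eq_true]
    refine ⟨(hits_iff (hM.lt p hp)).mpr ⟨w, hw, hne⟩, ?_⟩
    rw [inSpan_iff hB (length_xorV hy (hM.len p hp)), toV_xorV hy (hM.len p hp)]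
    exact h

theorem mem_bads (hM : Describes n M Mv) {B : List (List Bool)} (hB : ∀ b ∈ B, b.length = n)
    {z : List Bool} (hz : z.length = n) (u : Fin n) :
    u.val ∈ bads M (List.range n) B z ↔ ∃ m ∈ Mv u, toV n z + m ∉ NW Mv (spanOf n B) := by
  rw [bads, List.mem_filter, List.any_eq_true]
  constructor
  · rintro ⟨_, p, hp, h⟩
    rw [Bool.and_eq_true, decide_eq_true_eq, Bool.not_eq_true'] at h
    refine ⟨toV n p.2.1, (hM.mem _ _).mpr ⟨p, hp, h.1, rfl⟩, ?_⟩
    rw [← toV_xorV hz (hM.len p hp), ← inNW_iff hM hB (length_xorV hz (hM.len p hp)), h.2]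
    simp
  · rintro ⟨m, hm, h⟩
    obtain ⟨p, hp, hpu, rfl⟩ := (hM.mem _ _).mp hm
    refine ⟨List.mem_range.mpr u.isLt, p, hp, ?_⟩
    rw [Bool.and_eq_true, decide_eq_true_eq, Bool.not_eq_true']
    refine ⟨hpu, ?_⟩
    rw [← toV_xorV hz (hM.len p hp), ← inNW_iff hM hB (length_xorV hz (hM.len p hp))] at h
    simpa using h

theorem bads_lt {idx : List ℕ} {B : List (List Bool)} {z : List Bool}
    (h : ∀ u ∈ idx, u < n) : ∀ u ∈ bads M idx B z, u < n := by
  intro u hu
  exact h u (List.mem_filter.mp hu).1

theorem tryCand_some (hM : Describes n M Mv) {B : List (List Bool)}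
    (hB : ∀ b ∈ B, b.length = n) (hW : spanOf n B ≤ V0 Mv) {z x : List Bool} (hz : z.length = n)
    (h : tryCand M (List.range n) B z = some x) :
    x.length = n ∧ toV n x ∈ V0 Mv ∧ toV n x ∉ spanOf n B := by
  rw [tryCand] at h
  cases hs : inSpan B z with
  | true => rw [hs] at h; simp at h
  | false =>
    rw [hs, cond_false] at h
    obtain ⟨h1, h2, h3⟩ := solve_some hB hz (bads_lt (fun u hu => List.mem_range.mp hu)) h
    refine ⟨h1, ?_, ?_⟩
    · have h4 : toV n z + (toV n x - toV n z) = toV n x := by abel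
      rw [← h4]
      refine lp_of_candidate hW h2 ?_
      intro u hu m hm
      rw [h4] at hu
      by_contra hcon
      have h5 := (mem_bads hM hB hz u).mpr ⟨m, hm, hcon⟩
      have h6 := h3 u h5
      rw [toV_apply_ne_zero, h6] at hu
      exact absurd hu (by simp)
    · intro hcon
      have h4 : toV n z ∈ spanOf n B := by
        have := Submodule.sub_mem _ hcon h2
        simpa using this
      rw [← inSpan_iff hB hz, hs] at h4
      exact absurd h4 (by simp)

theorem tryCand_none (hM : Describes n M Mv) {B : List (List Bool)}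
    (hB : ∀ b ∈ B, b.length = n) {z : List Bool} (hz : z.length = n)
    (h : tryCand M (List.range n) B z = none) (hz' : toV n z ∉ spanOf n B) :
    ¬ ∃ w ∈ spanOf n B, ∀ u, (toV n z + w) u ≠ 0 → ∀ m ∈ Mv u,
      toV n z + m ∈ NW Mv (spanOf n B) := by
  have hs : inSpan B z = false := by
    rw [← Bool.not_eq_true, inSpan_iff hB hz]
    exact hz'
  rw [tryCand, hs, cond_false] at h
  have h1 := solve_none hB hz (bads_lt (fun u hu => List.mem_range.mp hu)) h
  rintro ⟨w, hw, h2⟩
  apply h1
  refine ⟨w, hw, fun u hu hbad => ?_⟩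
  by_contra hcon
  obtain ⟨m, hm, h3⟩ := (mem_bads hM hB hz ⟨u, hu⟩).mp hbad
  exact h3 (h2 ⟨u, hu⟩ hcon m hm)

theorem mem_found (hM : Describes n M Mv) {B : List (List Bool)}
    (hB : ∀ b ∈ B, b.length = n) (hW : spanOf n B ≤ V0 Mv) {x : List Bool}
    (h : x ∈ found M (List.range n) B) :
    x.length = n ∧ toV n x ∈ V0 Mv ∧ toV n x ∉ spanOf n B := by
  rw [found, List.mem_flatMap] at h
  obtain ⟨q, hq, hx⟩ := h
  rw [List.mem_product] at hq
  rw [Option.mem_toList] at hx
  exact tryCand_some hM hB hW (length_xorV (hM.len _ hq.1) (hM.len _ hq.2)) hx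

theorem found_nil (hM : Describes n M Mv) (hne : ∀ u, (Mv u).Nonempty) {B : List (List Bool)}
    (hB : ∀ b ∈ B, b.length = n) (hW : spanOf n B ≤ V0 Mv)
    (h : found M (List.range n) B = []) : spanOf n B = V0 Mv := by
  by_contra hcon
  obtain ⟨u₁, u₂, m₁, hm₁, m₂, hm₂, h1, h2⟩ := exists_candidate hne hW hcon
  obtain ⟨p₁, hp₁, hpu₁, rfl⟩ := (hM.mem _ _).mp hm₁
  obtain ⟨p₂, hp₂, hpu₂, rfl⟩ := (hM.mem _ _).mp hm₂
  have hlen := length_xorV (hM.len _ hp₁) (hM.len _ hp₂)
  rw [← toV_xorV (hM.len _ hp₁) (hM.len _ hp₂)] at h1 h2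
  refine tryCand_none hM hB hlen ?_ h1 h2
  rw [found, List.flatMap_eq_nil_iff] at h
  have h3 := h (p₁, p₂) (List.mem_product.mpr ⟨hp₁, hp₂⟩)
  simpa using h3

theorem spanOf_cons_le {B : List (List Bool)} {x : List Bool}
    {V : Submodule (ZMod 2) (Fin n → ZMod 2)} (hx : toV n x ∈ V) (hB : spanOf n B ≤ V) :
    spanOf n (x :: B) ≤ V := by
  refine Submodule.span_le.mpr ?_
  rintro _ ⟨b, hb, rfl⟩
  rcases List.mem_cons.mp hb with rfl | hb
  · exact hx
  · exact hB (Submodule.subset_span ⟨b, hb, rfl⟩)

theorem spanOf_le_cons {B : List (List Bool)} {x : List Bool} :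
    spanOf n B ≤ spanOf n (x :: B) := by
  refine Submodule.span_mono ?_
  rintro _ ⟨b, hb, rfl⟩
  exact ⟨b, List.mem_cons_of_mem _ hb, rfl⟩

theorem mem_spanOf_cons {B : List (List Bool)} {x : List Bool} :
    toV n x ∈ spanOf n (x :: B) := Submodule.subset_span ⟨x, List.mem_cons_self, rfl⟩

/-- invariant of the rounds -/
theorem round_iterate (hM : Describes n M Mv) (hne : ∀ u, (Mv u).Nonempty) (i : ℕ) :
    (∀ b ∈ (round M (List.range n))^[i] [], b.length = n) ∧
    spanOf n ((round M (List.range n))^[i] []) ≤ V0 Mv ∧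
    (spanOf n ((round M (List.range n))^[i] []) = V0 Mv ∨
      i ≤ Module.finrank (ZMod 2) (spanOf n ((round M (List.range n))^[i] []))) ∧
    ((round M (List.range n))^[i] []).length ≤ i := by
  induction i with
  | zero =>
    refine ⟨by simp, ?_, Or.inr (Nat.zero_le _), by simp⟩
    refine Submodule.span_le.mpr ?_
    rintro _ ⟨b, hb, rfl⟩
    simp at hb
  | succ i ih =>
    obtain ⟨h1, h2, h3, h4⟩ := ih
    rw [Function.iterate_succ_apply']
    set B := (round M (List.range n))^[i] [] with hBdef
    cases hf : found M (List.range n) B with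
    | nil =>
      have e : round M (List.range n) B = B := by rw [round, hf]; rfl
      rw [e]
      exact ⟨h1, h2, Or.inl (found_nil hM hne h1 h2 hf), by omega⟩
    | cons x l =>
      have e : round M (List.range n) B = x :: B := by rw [round, hf]; rfl
      have hx := mem_found hM h1 h2 (x := x) (by rw [hf]; exact List.mem_cons_self)
      rw [e]
      refine ⟨?_, spanOf_cons_le hx.2.1 h2, Or.inr ?_, by simp; omega⟩
      · intro b hb
        rcases List.mem_cons.mp hb with rfl | hb
        · exact hx.1
        · exact h1 b hb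
      · have h5 : spanOf n B < spanOf n (x :: B) := by
          refine lt_of_le_of_ne spanOf_le_cons fun hcon => hx.2.2 ?_
          rw [hcon]
          exact mem_spanOf_cons
        have h6 := Submodule.finrank_lt_finrank_of_lt h5
        have h7 : i ≤ Module.finrank (ZMod 2) (spanOf n B) := by
          refine h3.resolve_left fun hcon => ?_
          apply hx.2.2
          rw [hcon]
          exact hx.2.1
        omega

theorem basis_spec (hM : Describes n M Mv) (hne : ∀ u, (Mv u).Nonempty) :
    (∀ b ∈ basis M (List.range n), b.length = n) ∧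
    spanOf n (basis M (List.range n)) = V0 Mv := by
  have h := round_iterate hM hne n
  rw [basis, List.length_range]
  refine ⟨h.1, ?_⟩
  rcases h.2.2.1 with h1 | h1
  · exact h1
  · have h2 : Module.finrank (ZMod 2) (Fin n → ZMod 2) = n := by simp
    have h3 : spanOf n ((round M (List.range n))^[n] []) = ⊤ := by
      apply Submodule.eq_top_of_finrank_eq
      rw [h2]
      refine le_antisymm ?_ h1
      exact (Submodule.finrank_le _).trans h2.le
    apply le_antisymm h.2.1
    rw [h3]
    exact le_top

end spec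

end Pool.Agent.KAnnih
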