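import Pool.Agent.Lib.KAnnih.Algo
import Pool.Agent.Lib.PolyTime.Subsets

/-!
# The algorithm for annihilation-like games runs in polynomial time
-/

set_option autoImplicit false

namespace Pool.Agent.KAnnih

open Pool.Agent.PolyTime

variable {α β : Type*} [Enc α] [Enc β]

/-- option to list -/
@[fun_prop] lemma pt_toList {o : α → Option β} (ho : PT o) : PT fun a => (o a).toList := by
  have h := PT.optionCases (f := fun _ => []) (g := fun (_ : α) (b : β) => [b]) ho
    (by fun_prop) (by fun_prop)
  refine h.congr fun a => ?_
  cases o a <;> rfl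

@[fun_prop] lemma pt_hits {B : α → List (List Bool)} {p : α → Mov} (hB : PT B) (hp : PT p) :
    PT fun a => hits (B a) (p a) := by
  refine PT.or (by fun_prop) ?_
  exact PT.any (f := fun a b => bit b (p a).1) (by fun_prop) (by fun_prop)

@[fun_prop] lemma pt_inNW {M : α → List Mov} {B : α → List (List Bool)} {y : α → List Bool}
    (hM : PT M) (hB : PT B) (hy : PT y) : PT fun a => inNW (M a) (B a) (y a) := by
  exact PT.any (f := fun a p => hits (B a) p && inSpan (B a) (xorV (y a) p.2.1)) (by fun_prop) hM

@[fun_prop] lemma pt_bads {M : α → List Mov} {idx : α → List ℕ} {B : α → List (List Bool)}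
    {z : α → List Bool} (hM : PT M) (hi : PT idx) (hB : PT B) (hz : PT z) :
    PT fun a => bads (M a) (idx a) (B a) (z a) := by
  refine PT.filter (f := fun a u => (M a).any fun p => decide (p.1 = u) &&
    !inNW (M a) (B a) (xorV (z a) p.2.1)) ?_ hi
  refine PT.any (f := fun (q : α × ℕ) (p : Mov) => decide (p.1 = q.2) &&
    !inNW (M q.1) (B q.1) (xorV (z q.1) p.2.1)) ?_ (by fun_prop)
  refine PT.and (PT.decide_eq (by fun_prop) (by fun_prop)) ?_
  fun_prop

@[fun_prop] lemma pt_tryCand {M : α → List Mov} {idx : α → List ℕ} {B : α → List (List Bool)}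
    {z : α → List Bool} (hM : PT M) (hi : PT idx) (hB : PT B) (hz : PT z) :
    PT fun a => tryCand (M a) (idx a) (B a) (z a) :=
  PT.bif (by fun_prop) (by fun_prop) (by fun_prop)

@[fun_prop] lemma pt_found {M : α → List Mov} {idx : α → List ℕ} {B : α → List (List Bool)}
    (hM : PT M) (hi : PT idx) (hB : PT B) : PT fun a => found (M a) (idx a) (B a) := by
  refine PT.flatMap (f := fun a (q : Mov × Mov) =>
    (tryCand (M a) (idx a) (B a) (xorV q.1.2.1 q.2.2.1)).toList) (by fun_prop) ?_
  exact PT.product hM hM

@[fun_prop] lemma pt_round {M : α → List Mov} {idx : α → List ℕ} {B : α → List (List Bool)}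
    (hM : PT M) (hi : PT idx) (hB : PT B) : PT fun a => round (M a) (idx a) (B a) := by
  unfold round
  fun_prop

/-! ### Sizes -/

lemma foldl_elim_z (l : List ℕ) : ∀ (B : List (List Bool)) (z : List Bool) B' z',
    l.foldl elim (some (B, z)) = some (B', z') → z'.length ≤ z.length := by
  induction l with
  | nil =>
    intro B z B' z' h
    simp only [List.foldl_nil, Option.some.injEq, Prod.mk.injEq] at h
    obtain ⟨rfl, rfl⟩ := h
    exact le_rfl
  | cons u l ih =>
    intro B z B' z' h
    rw [List.foldl_cons] at h
    simp only [elim] at h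
    split at h
    · split at h
      · rw [foldl_elim_none] at h; simp at h
      · exact ih _ _ _ _ h
    · refine (ih _ _ _ _ h).trans ?_
      split
      · exact xorV_length_le _ _
      · exact le_rfl

lemma solve_length_le {bad : List ℕ} {B : List (List Bool)} {z x : List Bool}
    (h : solve bad B z = some x) : x.length ≤ z.length := by
  rw [solve, Option.map_eq_some_iff] at h
  obtain ⟨⟨B', z'⟩, h1, rfl⟩ := h
  exact foldl_elim_z bad B z B' z' h1

lemma tryCand_length_le {M : List Mov} {idx : List ℕ} {B : List (List Bool)} {z x : List Bool}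
    (h : tryCand M idx B z = some x) : x.length ≤ z.length := by
  rw [tryCand] at h
  cases hs : inSpan B z with
  | true => rw [hs] at h; simp at h
  | false => rw [hs, cond_false] at h; exact solve_length_le h

lemma found_length_le {M : List Mov} {idx : List ℕ} {B : List (List Bool)} {x : List Bool}
    (h : x ∈ found M idx B) : x.length ≤ sz M := by
  rw [found, List.mem_flatMap] at h
  obtain ⟨q, hq, hx⟩ := h
  rw [List.mem_product] at hq
  rw [Option.mem_toList] at hx
  refine (tryCand_length_le hx).trans ((xorV_length_le _ _).trans ?_)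
  have h1 := sz_le_of_mem hq.1
  have h2 := length_lt_sz q.1.2.1
  have h3 : sz q.1 = sz q.1.1 + sz q.1.2 + 1 := sz_prod _
  have h4 : sz q.1.2 = sz q.1.2.1 + sz q.1.2.2 + 1 := sz_prod _
  omega

lemma round_iterate_size (M : List Mov) (idx : List ℕ) (i : ℕ) :
    ((round M idx)^[i] []).length ≤ i ∧ ∀ b ∈ (round M idx)^[i] [], b.length ≤ sz M := by
  induction i with
  | zero => simp
  | succ i ih =>
    rw [Function.iterate_succ_apply']
    refine ⟨?_, ?_⟩
    · rw [round, List.length_append]
      have : ((found M idx ((round M idx)^[i] [])).take 1).length ≤ 1 := by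
        rw [List.length_take]; exact min_le_left _ _
      omega
    · intro b hb
      rw [round, List.mem_append] at hb
      rcases hb with hb | hb
      · exact found_length_le (List.mem_of_mem_take hb)
      · exact ih.2 b hb

lemma round_iterate_sz (M : List Mov) (idx : List ℕ) (i : ℕ) :
    sz ((round M idx)^[i] []) ≤ i * (4 * sz M + 2) + 1 := by
  obtain ⟨h1, h2⟩ := round_iterate_size M idx i
  refine (sz_list_le (B := 4 * sz M + 1) fun b hb => (sz_bits_le b).trans ?_).trans ?_
  · have := h2 b hb
    omega
  · exact Nat.add_le_add_right (Nat.mul_le_mul_right (4 * sz M + 2) h1) 1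

@[fun_prop] lemma pt_basis {M : α → List Mov} {idx : α → List ℕ} (hM : PT M) (hi : PT idx) :
    PT fun a => basis (M a) (idx a) := by
  have key : ∀ (M : List Mov) (idx : List ℕ) (i : ℕ) (B : List (List Bool)),
      (fun q : (List Mov × List ℕ) × List (List Bool) => (q.1, round q.1.1 q.1.2 q.2))^[i]
        ((M, idx), B) = ((M, idx), (round M idx)^[i] B) := by
    intro M idx i
    induction i with
    | zero => intro B; rfl
    | succ i ih => intro B; rw [Function.iterate_succ_apply, Function.iterate_succ_apply, ← ih]
  have h := PT.iterate_length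
    (f := fun q : (List Mov × List ℕ) × List (List Bool) => (q.1, round q.1.1 q.1.2 q.2))
    (s := fun a => ((M a, idx a), ([] : List (List Bool)))) (l := idx)
    (B := fun a => sz (M a) + sz (idx a) + 1 + (sz (idx a) * (4 * sz (M a) + 2) + 1) + 1)
    (by fun_prop) (by fun_prop) hi
    (by
      have h1 : PBd fun a => sz (M a) := PT.bdd hM
      have h2 : PBd fun a => sz (idx a) := PT.bdd hi
      exact (((h1.add h2).add (PBd.const 1)).add
        ((h2.mul (((PBd.const 4).mul h1).add (PBd.const 2))).add (PBd.const 1))).add (PBd.const 1))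
    (by
      intro a i hi
      rw [key, sz_pair, sz_pair]
      have h1 := round_iterate_sz (M a) (idx a) i
      have h2 : i * (4 * sz (M a) + 2) ≤ sz (idx a) * (4 * sz (M a) + 2) :=
        Nat.mul_le_mul_right _ (hi.trans (length_lt_sz _).le)
      omega)
  refine (PT.snd h).congr fun a => ?_
  rw [key]; rfl

@[fun_prop] lemma pt_winMove {M : α → List Mov} {B : α → List (List Bool)} {s : α → List Bool}
    (hM : PT M) (hB : PT B) (hs : PT s) : PT fun a => winMove (M a) (B a) (s a) :=
  PT.find? (f := fun a (p : Mov) => bit (s a) p.1 && inSpan (B a) (xorV (s a) p.2.1))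
    (by fun_prop) hM

@[fun_prop] lemma pt_drawMove {M : α → List Mov} {B : α → List (List Bool)} {s : α → List Bool}
    (hM : PT M) (hB : PT B) (hs : PT s) : PT fun a => drawMove (M a) (B a) (s a) :=
  PT.find? (f := fun a (p : Mov) => bit (s a) p.1 && !inSpan (B a) (xorV (s a) p.2.1) &&
    !(winMove (M a) (B a) (xorV (s a) p.2.1)).isSome) (by fun_prop) hM

lemma pt_moveStr {idx : α → List ℕ} {p : α → Mov} (hi : PT idx) (hp : PT p) :
    PT fun a => (idx a).map (fun i => decide (i = (p a).1)) ++ (p a).2.2 := by
  refine PT.append ?_ (by fun_prop)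
  exact PT.map (f := fun a i => decide (i = (p a).1))
    (PT.decide_eq (by fun_prop) (by fun_prop)) hi

@[fun_prop] lemma pt_answerStr {M : α → List Mov} {idx : α → List ℕ} {B : α → List (List Bool)}
    {s : α → List Bool} (hM : PT M) (hi : PT idx) (hB : PT B) (hs : PT s) :
    PT fun a => answerStr (M a) (idx a) (B a) (s a) := by
  have h1 := PT.optionCases (o := fun a => drawMove (M a) (B a) (s a)) (f := fun _ => [])
    (g := fun (a : α) (p : Mov) =>
      false :: false :: ((idx a).map (fun i => decide (i = p.1)) ++ p.2.2))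
    (by fun_prop) (by fun_prop)
    (PT.cons (by fun_prop) (PT.cons (by fun_prop) (pt_moveStr (α := α × Mov) (by fun_prop)
      (by fun_prop))))
  have h2 := PT.optionCases (o := fun a => winMove (M a) (B a) (s a))
    (g := fun (a : α) (p : Mov) =>
      true :: false :: ((idx a).map (fun i => decide (i = p.1)) ++ p.2.2))
    (by fun_prop) h1
    (PT.cons (by fun_prop) (PT.cons (by fun_prop) (pt_moveStr (α := α × Mov) (by fun_prop)
      (by fun_prop))))
  have h3 := PT.bif (c := fun a => inSpan (B a) (s a)) (by fun_prop) (PT.const [true, true]) h2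
  refine h3.congr fun a => ?_
  rw [answerStr]
  cases inSpan (B a) (s a) <;> cases winMove (M a) (B a) (s a) <;>
    cases drawMove (M a) (B a) (s a) <;> rfl

/-- the whole algorithm runs in polynomial time -/
theorem PT.answer {M : α → List Mov} {idx : α → List ℕ} {s : α → List Bool} (hM : PT M)
    (hi : PT idx) (hs : PT s) :
    PT fun a => answerStr (M a) (idx a) (basis (M a) (idx a)) (s a) := by
  fun_prop

end Pool.Agent.KAnnih
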