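import Mathlib

/-!
# `k`-annihilation games: definitions

A digraph on the vertex set `Fin n` (loops allowed) is given by `E : Fin n → Fin n → Bool`; a
position is the set `S : Finset (Fin n)` of the vertices carrying a token.
-/

set_option autoImplicit false

namespace Pool.Agent.KAnnih

/-- The followers of `u`. -/
def followers {n : ℕ} (E : Fin n → Fin n → Bool) (u : Fin n) : Finset (Fin n) :=
  Finset.univ.filter fun v => E u v = true

/-- In `k`-annihilation, firing the vertex `u` and complementing the set `T` of followers of `u` is a
legal move from `S` to `S'`: there is a token on `u`, the set `T` consists of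
`min k (outdegree of u)` followers of `u`, and `S'` arises from `S` by removing the token of `u` and
then complementing all vertices of `T`. -/
def IsMove {n : ℕ} (k : ℕ) (E : Fin n → Fin n → Bool) (S : Finset (Fin n)) (u : Fin n)
    (T : Finset (Fin n)) (S' : Finset (Fin n)) : Prop :=
  u ∈ S ∧ T ⊆ followers E u ∧ T.card = min k (followers E u).card ∧
    S' = symmDiff (S.erase u) T

/-- `S'` is an option of `S`. -/
def IsOption {n : ℕ} (k : ℕ) (E : Fin n → Fin n → Bool) (S S' : Finset (Fin n)) : Prop :=
  ∃ u T, IsMove k E S u T S'

/-- From the position `S` the player to move loses after at most `r` further moves of his: he has no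
move, or (for positive `r`) each of his moves has an answer after which he loses after at most
`r - 1` further moves of his. -/
def LosesIn {n : ℕ} (k : ℕ) (E : Fin n → Fin n → Bool) : ℕ → Finset (Fin n) → Prop
  | 0, S => ∀ S', ¬ IsOption k E S S'
  | r + 1, S => ∀ S', IsOption k E S S' → ∃ S'', IsOption k E S' S'' ∧ LosesIn k E r S''

/-- The class `𝒫`: the previous player can force a win. -/
def IsP {n : ℕ} (k : ℕ) (E : Fin n → Fin n → Bool) (S : Finset (Fin n)) : Prop :=
  ∃ r, LosesIn k E r S

/-- The class `𝒩`: the player about to move can force a win. -/
def IsN {n : ℕ} (k : ℕ) (E : Fin n → Fin n → Bool) (S : Finset (Fin n)) : Prop :=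
  ∃ S', IsOption k E S S' ∧ IsP k E S'

/-- The class `𝒪`: neither player can force a win. -/
def IsO {n : ℕ} (k : ℕ) (E : Fin n → Fin n → Bool) (S : Finset (Fin n)) : Prop :=
  ¬ IsP k E S ∧ ¬ IsN k E S

/-- An instance: a digraph together with a position on it. -/
structure Inst where
  /-- number of vertices -/
  n : ℕ
  /-- the edges -/
  E : Fin n → Fin n → Bool
  /-- the position -/
  S : Finset (Fin n)

/-- An answer: the outcome class, and in the cases `𝒩` and `𝒪` a move (the vertex `u` to be fired
and the set `T` of followers to be complemented). -/
inductive Answer (n : ℕ) : Type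
  | P : Answer n
  | N (u : Fin n) (T : Finset (Fin n)) : Answer n
  | O (u : Fin n) (T : Finset (Fin n)) : Answer n

/-- The answer is right: the class is the class of the position, and the move is a legal and optimal
move (to a position of class `𝒫` from one of class `𝒩`, and to a position of class `𝒪` from one of
class `𝒪`). -/
def Correct (k : ℕ) (x : Inst) : Answer x.n → Prop
  | Answer.P => IsP k x.E x.S
  | Answer.N u T => IsN k x.E x.S ∧ ∃ S', IsMove k x.E x.S u T S' ∧ IsP k x.E S'
  | Answer.O u T => IsO k x.E x.S ∧ ∃ S', IsMove k x.E x.S u T S' ∧ IsO k x.E S'

/-- The characteristic vector of a set of vertices. -/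
def vec {n : ℕ} (S : Finset (Fin n)) : List Bool := List.ofFn fun i => decide (i ∈ S)

/-- The input string: the number of vertices in unary, ended by a `false`, followed by the rows of
the adjacency matrix and by the characteristic vector of the position. -/
def encodeInst (x : Inst) : List Bool :=
  List.replicate x.n true ++ false ::
    ((List.ofFn fun u => List.ofFn fun v => x.E u v).flatten ++ vec x.S)

/-- The output string: two symbols for the class, followed, for the classes `𝒩` and `𝒪`, by the
characteristic vectors of `{u}` and of `T`. -/
def encodeAnswer {n : ℕ} : Answer n → List Bool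
  | Answer.P => [true, true]
  | Answer.N u T => true :: false :: (vec {u} ++ vec T)
  | Answer.O u T => false :: false :: (vec {u} ++ vec T)

end Pool.Agent.KAnnih
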