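import Pool.Agent.Lib.KAnnih.Theory
import Pool.Agent.Lib.KAnnih.Defs

/-!
# From sets of vertices to vectors
-/

set_option autoImplicit false

namespace Pool.Agent.KAnnih

variable {n : ℕ}

/-- characteristic vector over `ZMod 2` -/
def chi (S : Finset (Fin n)) : Fin n → ZMod 2 := fun i => if i ∈ S then 1 else 0

theorem chi_ne_zero {S : Finset (Fin n)} {u : Fin n} : chi S u ≠ 0 ↔ u ∈ S := by
  simp [chi]

theorem chi_injective : Function.Injective (chi : Finset (Fin n) → (Fin n → ZMod 2)) := by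
  intro S T h
  ext u
  rw [← chi_ne_zero, h, chi_ne_zero]

theorem chi_surjective (x : Fin n → ZMod 2) : ∃ S, chi S = x := by
  refine ⟨Finset.univ.filter fun u => x u ≠ 0, ?_⟩
  funext u
  simp only [chi, Finset.mem_filter, Finset.mem_univ, true_and]
  have : ∀ c : ZMod 2, (if c ≠ 0 then (1 : ZMod 2) else 0) = c := by decide
  exact this (x u)

theorem chi_symmDiff (S T : Finset (Fin n)) : chi (symmDiff S T) = chi S + chi T := by
  funext u
  simp only [chi, Pi.add_apply, Finset.mem_symmDiff]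
  by_cases h1 : u ∈ S <;> by_cases h2 : u ∈ T <;> simp [h1, h2]
  decide

theorem chi_erase {S : Finset (Fin n)} {u : Fin n} (h : u ∈ S) :
    chi (S.erase u) = chi S + chi {u} := by
  rw [← chi_symmDiff]
  congr 1
  ext v
  simp only [Finset.mem_erase, Finset.mem_symmDiff, Finset.mem_singleton]
  by_cases hv : v = u
  · subst hv; simp [h]
  · simp [hv]

/-- the move vectors of a vertex -/
def Mv (k : ℕ) (E : Fin n → Fin n → Bool) (u : Fin n) : Set (Fin n → ZMod 2) :=
  {m | ∃ T : Finset (Fin n), T ⊆ followers E u ∧ T.card = min k (followers E u).card ∧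
    m = chi {u} + chi T}

theorem Mv_nonempty (k : ℕ) (E : Fin n → Fin n → Bool) (u : Fin n) : (Mv k E u).Nonempty := by
  obtain ⟨T, hT, hc⟩ := Finset.exists_subset_card_eq (min_le_right k (followers E u).card)
  exact ⟨_, T, hT, hc, rfl⟩

theorem chi_of_isMove {k : ℕ} {E : Fin n → Fin n → Bool} {S T S' : Finset (Fin n)} {u : Fin n}
    (h : IsMove k E S u T S') : chi S' = chi S + (chi {u} + chi T) := by
  obtain ⟨hu, _, _, rfl⟩ := h
  rw [chi_symmDiff, chi_erase hu, add_assoc]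

theorem isMove_of_chi {k : ℕ} {E : Fin n → Fin n → Bool} {S T S' : Finset (Fin n)} {u : Fin n}
    (hu : u ∈ S) (hT : T ⊆ followers E u) (hc : T.card = min k (followers E u).card)
    (h : chi S' = chi S + (chi {u} + chi T)) : IsMove k E S u T S' := by
  refine ⟨hu, hT, hc, chi_injective ?_⟩
  rw [h, chi_symmDiff, chi_erase hu, add_assoc]

theorem isOption_iff {k : ℕ} {E : Fin n → Fin n → Bool} {S S' : Finset (Fin n)} :
    IsOption k E S S' ↔ ∃ u m, chi S u ≠ 0 ∧ m ∈ Mv k E u ∧ chi S' = chi S + m := by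
  constructor
  · rintro ⟨u, T, h⟩
    exact ⟨u, _, chi_ne_zero.mpr h.1, ⟨T, h.2.1, h.2.2.1, rfl⟩, chi_of_isMove h⟩
  · rintro ⟨u, m, hu, ⟨T, hT, hc, rfl⟩, h⟩
    exact ⟨u, T, isMove_of_chi (chi_ne_zero.mp hu) hT hc h⟩

theorem losesIn_iff {k : ℕ} {E : Fin n → Fin n → Bool} (r : ℕ) : ∀ {S : Finset (Fin n)},
    LosesIn k E r S ↔ Lost (Mv k E) r (chi S) := by
  induction r with
  | zero =>
    intro S
    constructor
    · intro h u hu m hm
      obtain ⟨S', hS'⟩ := chi_surjective (chi S + m)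
      exact h S' (isOption_iff.mpr ⟨u, m, hu, hm, hS'⟩)
    · intro h S' hS'
      obtain ⟨u, m, hu, hm, _⟩ := isOption_iff.mp hS'
      exact h u hu m hm
  | succ r ih =>
    intro S
    constructor
    · intro h u hu m hm
      obtain ⟨S', hS'⟩ := chi_surjective (chi S + m)
      obtain ⟨S'', h1, h2⟩ := h S' (isOption_iff.mpr ⟨u, m, hu, hm, hS'⟩)
      obtain ⟨u', m', hu', hm', h3⟩ := isOption_iff.mp h1
      rw [hS'] at hu' h3
      refine ⟨u', m', hu', hm', ?_⟩
      rw [← h3]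
      exact ih.mp h2
    · intro h S' hS'
      obtain ⟨u, m, hu, hm, h1⟩ := isOption_iff.mp hS'
      obtain ⟨u', m', hu', hm', h2⟩ := h u hu m hm
      obtain ⟨S'', hS''⟩ := chi_surjective (chi S + m + m')
      refine ⟨S'', isOption_iff.mpr ⟨u', m', ?_, hm', ?_⟩, ih.mpr ?_⟩
      · rw [h1]; exact hu'
      · rw [hS'', h1]
      · rw [hS'']; exact h2

theorem isP_iff {k : ℕ} {E : Fin n → Fin n → Bool} {S : Finset (Fin n)} :
    IsP k E S ↔ LP (Mv k E) (chi S) :=
  exists_congr fun r => losesIn_iff r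

theorem isN_iff {k : ℕ} {E : Fin n → Fin n → Bool} {S : Finset (Fin n)} :
    IsN k E S ↔ Win (Mv k E) (chi S) := by
  constructor
  · rintro ⟨S', h1, h2⟩
    obtain ⟨u, m, hu, hm, h⟩ := isOption_iff.mp h1
    refine ⟨u, m, hu, hm, ?_⟩
    rw [← h]
    exact isP_iff.mp h2
  · rintro ⟨u, m, hu, hm, h⟩
    obtain ⟨S', hS'⟩ := chi_surjective (chi S + m)
    refine ⟨S', isOption_iff.mpr ⟨u, m, hu, hm, hS'⟩, isP_iff.mpr ?_⟩
    rw [hS']
    exact h

end Pool.Agent.KAnnih
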