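import Pool.Agent.Lib.PolyTime.Final
import Pool.Agent.Lib.PolyTime.More

/-!
# Reading the input string in polynomial time
-/

set_option autoImplicit false

namespace Pool.Agent.KAnnih

open Pool.Agent.PolyTime

section general

variable {α β : Type*} [Enc α] [Enc β]

theorem zipIdx_filter_lt (l : List β) (m : ℕ) : ∀ k : ℕ,
    ((l.zipIdx k).filter fun p => decide (p.2 < m)).map (fun p => p.1) = l.take (m - k) := by
  induction l with
  | nil => intro k; simp
  | cons b l ih =>
    intro k
    rw [List.zipIdx_cons, List.filter_cons]
    by_cases h : k < m
    · have e : m - k = (m - (k + 1)) + 1 := by omega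
      simp only [h, decide_true, if_true, List.map_cons]
      rw [ih, e, List.take_succ_cons]
    · have e : m - k = 0 := by omega
      have e' : m - (k + 1) = 0 := by omega
      simp only [h, decide_false, Bool.false_eq_true, if_false]
      rw [ih, e, e']
      simp

theorem zipIdx_filter_le (l : List β) (m : ℕ) : ∀ k : ℕ,
    ((l.zipIdx k).filter fun p => decide (m ≤ p.2)).map (fun p => p.1) = l.drop (m - k) := by
  induction l with
  | nil => intro k; simp
  | cons b l ih =>
    intro k
    rw [List.zipIdx_cons, List.filter_cons]
    by_cases h : m ≤ k
    · have e : m - k = 0 := by omega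
      have e' : m - (k + 1) = 0 := by omega
      simp only [h, decide_true, if_true, List.map_cons]
      rw [ih, e, e']
      simp
    · have e : m - k = (m - (k + 1)) + 1 := by omega
      simp only [h, decide_false, Bool.false_eq_true, if_false]
      rw [ih, e, List.drop_succ_cons]

theorem PTtake {l : α → List β} {m : α → ℕ} (hl : PT l) (hm : PT m) :
    PT fun a => (l a).take (m a) := by
  have h := PT.map (f := fun (_ : α) (p : β × ℕ) => p.1) (by fun_prop)
    (PT.filter (f := fun (a : α) (p : β × ℕ) => decide (p.2 < m a))
      (PT.decide_lt (by fun_prop) (hm.comp (by fun_prop))) (PT.zipIdx hl))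
  refine h.congr fun a => ?_
  rw [zipIdx_filter_lt, Nat.sub_zero]

theorem PTdrop {l : α → List β} {m : α → ℕ} (hl : PT l) (hm : PT m) :
    PT fun a => (l a).drop (m a) := by
  have h := PT.map (f := fun (_ : α) (p : β × ℕ) => p.1) (by fun_prop)
    (PT.filter (f := fun (a : α) (p : β × ℕ) => decide (m a ≤ p.2))
      (PT.decide_le (hm.comp (by fun_prop)) (by fun_prop)) (PT.zipIdx hl))
  refine h.congr fun a => ?_
  rw [zipIdx_filter_le, Nat.sub_zero]

/-- one step of reading the leading `true`s -/
def leadStep (s : Bool × List Bool) (b : Bool) : Bool × List Bool :=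
  bif s.1 && b then (true, b :: s.2) else (false, s.2)

theorem foldl_leadStep_false (l : List Bool) (acc : List Bool) :
    l.foldl leadStep (false, acc) = (false, acc) := by
  induction l with
  | nil => rfl
  | cons b l ih => exact ih

theorem foldl_leadStep (l : List Bool) : ∀ acc : List Bool,
    (l.foldl leadStep (true, acc)).2 = (l.takeWhile fun b => b).reverse ++ acc := by
  induction l with
  | nil => intro acc; rfl
  | cons b l ih =>
    intro acc
    cases b with
    | false =>
      rw [List.foldl_cons]
      show (l.foldl leadStep (false, acc)).2 = _
      rw [foldl_leadStep_false]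
      simp
    | true =>
      rw [List.foldl_cons]
      show (l.foldl leadStep (true, true :: acc)).2 = _
      rw [ih]
      simp

theorem PTlead {l : α → List Bool} (hl : PT l) : PT fun a => (l a).takeWhile fun b => b := by
  have h := PT.foldl (g := fun (_ : α) (s : Bool × List Bool) (b : Bool) => leadStep s b)
    (s := fun _ => (true, [])) (l := l)
    (PT.bif (by fun_prop) (by fun_prop) (by fun_prop)) (by fun_prop) hl
    (B := fun a => 4 + sz (l a)) ((PBd.const 4).add (PT.bdd hl)) (by
      intro a l1 l2 h
      have h1 : sz (l1.foldl leadStep (true, [])).2 ≤ sz (l a) := by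
        rw [foldl_leadStep, List.append_nil, sz_reverse, h]
        exact sz_sublist_le ((List.takeWhile_sublist _).trans (List.sublist_append_left _ _))
      rw [sz_prod]
      have h2 := sz_bool_le (l1.foldl leadStep (true, [])).1
      show sz (l1.foldl leadStep (true, [])).1 + sz (l1.foldl leadStep (true, [])).2 + 1 ≤ _
      omega)
  refine (PT.reverse (PT.snd h)).congr fun a => ?_
  show ((l a).foldl leadStep (true, [])).2.reverse = _
  rw [foldl_leadStep]
  simp

end general

/-- the unary number of vertices -/
def lead (w : List Bool) : List Bool := w.takeWhile fun b => b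

/-- the vertices -/
def idxOf (w : List Bool) : List ℕ := List.range (lead w).length

/-- the string after the number of vertices -/
def restOf (w : List Bool) : List Bool := w.tail.drop (lead w).length

/-- the rows of the adjacency matrix -/
def matOf (w : List Bool) : List (List Bool) :=
  (idxOf w).map fun i => ((restOf w).drop (i * (lead w).length)).take (lead w).length

/-- the position -/
def posOf (w : List Bool) : List Bool := (restOf w).drop ((lead w).length * (lead w).length)

theorem PT_idxOf : PT idxOf := PT.rangeLength (PTlead PT.id)

theorem PT_leadLength : PT fun w => (lead w).length := PT.length (PTlead PT.id)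

theorem PT_restOf : PT restOf := PTdrop (PT.tail PT.id) PT_leadLength

theorem PT_posOf : PT posOf := PTdrop PT_restOf (PT.mul PT_leadLength PT_leadLength)

theorem PT_matOf : PT matOf := by
  refine PT.map (f := fun (w : List Bool) (i : ℕ) =>
    ((restOf w).drop (i * (lead w).length)).take (lead w).length) ?_ PT_idxOf
  have h1 : PT fun p : List Bool × ℕ => (lead p.1).length := PT_leadLength.comp PT.fst'
  exact PTtake (PTdrop (PT_restOf.comp PT.fst') (PT.mul (PT.snd') h1)) h1

theorem drop_take_flatten {n : ℕ} (L : List (List Bool)) (tail : List Bool) :
    (∀ l ∈ L, l.length = n) → ∀ (i : ℕ) (hi : i < L.length),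
      ((L.flatten ++ tail).drop (i * n)).take n = L[i] := by
  induction L with
  | nil => intro _ i hi; simp at hi
  | cons l L ih =>
    intro hL i hi
    have hl : l.length = n := hL l List.mem_cons_self
    rw [List.flatten_cons, List.append_assoc]
    cases i with
    | zero =>
      rw [Nat.zero_mul, List.drop_zero, ← hl]
      simp
    | succ i =>
      have e : (i + 1) * n = l.length + i * n := by rw [hl]; ring
      rw [e, ← List.drop_drop, List.drop_left]
      have := ih (fun l hl => hL l (List.mem_cons_of_mem _ hl)) i (by simpa using hi)
      simpa using this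

end Pool.Agent.KAnnih
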