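import Pool.Agent.Lib.KAnnih.Moves
import Pool.Agent.Lib.KAnnih.Parse
import Pool.Agent.Lib.KAnnih.AlgoPT

/-!
# `k`-annihilation games in polynomial time: assembly
-/

set_option autoImplicit false

namespace Pool.Agent.KAnnih

open Pool.Agent.PolyTime

section

variable {α : Type*} [Enc α]

theorem PT_fol {idx : α → List ℕ} {row : α → List Bool} (hi : PT idx) (hr : PT row) :
    PT fun a => fol (idx a) (row a) :=
  PT.filter (f := fun (a : α) (v : ℕ) => bit (row a) v)
    (PT.bit (hr.comp PT.fst') PT.snd') hi

theorem PT_moveList (k : ℕ) {idx : α → List ℕ} {rows : α → List (List Bool)} (hi : PT idx)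
    (hr : PT rows) : PT fun a => moveList k (idx a) (rows a) := by
  refine PT.flatMap (f := fun (a : α) (u : ℕ) =>
    (tsubs k (fol (idx a) ((rows a).getD u []))).map fun T =>
    ((u, vecOf (idx a).length (u :: T), vecOf (idx a).length T) : Mov)) ?_ hi
  refine PT.map (f := fun (p : α × ℕ) (T : List ℕ) =>
    ((p.2, vecOf (idx p.1).length (p.2 :: T), vecOf (idx p.1).length T) : Mov)) ?_ ?_
  · have h1 : PT fun q : (α × ℕ) × List ℕ => idx q.1.1 := hi.comp (by fun_prop)
    exact PT.pair (by fun_prop) (PT.pair (PT.vecOf h1 (by fun_prop)) (PT.vecOf h1 (by fun_prop)))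
  · have h1 : PT fun q : α × ℕ => idx q.1 := hi.comp PT.fst'
    have h2 : PT fun q : α × ℕ => rows q.1 := hr.comp PT.fst'
    exact PT.tsubs k (PT_fol h1 (PT.getD h2 PT.snd' (PT.const [])))

end

theorem lead_encodeInst (x : Inst) : lead (encodeInst x) = List.replicate x.n true := by
  rw [lead, encodeInst, List.takeWhile_append_of_pos]
  · simp
  · intro b hb
    exact List.eq_of_mem_replicate hb

theorem idxOf_encodeInst (x : Inst) : idxOf (encodeInst x) = List.range x.n := by
  rw [idxOf, lead_encodeInst, List.length_replicate]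

theorem restOf_encodeInst (x : Inst) :
    restOf (encodeInst x) = (rowsOf x.E).flatten ++ vec x.S := by
  rw [restOf, lead_encodeInst, List.length_replicate, encodeInst]
  rw [← List.drop_one, List.drop_drop]
  have e : 1 + x.n = (List.replicate x.n true).length + 1 := by simp; ring
  rw [e, ← List.drop_drop, List.drop_left]
  rfl

theorem length_of_mem_rowsOf {n : ℕ} (E : Fin n → Fin n → Bool) : ∀ l ∈ rowsOf E, l.length = n := by
  intro l hl
  rw [rowsOf, List.mem_ofFn] at hl
  obtain ⟨u, rfl⟩ := hl
  simp

theorem matOf_encodeInst (x : Inst) : matOf (encodeInst x) = rowsOf x.E := by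
  rw [matOf, idxOf_encodeInst, restOf_encodeInst, lead_encodeInst, List.length_replicate]
  apply List.ext_getElem
  · simp [rowsOf]
  · intro i h1 h2
    rw [List.getElem_map, List.getElem_range]
    exact drop_take_flatten _ _ (length_of_mem_rowsOf x.E) i h2

theorem length_flatten_of_length {n : ℕ} (L : List (List Bool)) (hL : ∀ l ∈ L, l.length = n) :
    L.flatten.length = L.length * n := by
  induction L with
  | nil => simp
  | cons l L ih =>
    rw [List.flatten_cons, List.length_append, ih (fun l hl => hL l (List.mem_cons_of_mem _ hl)),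
      hL l List.mem_cons_self, List.length_cons]
    ring

theorem posOf_encodeInst (x : Inst) : posOf (encodeInst x) = vec x.S := by
  rw [posOf, restOf_encodeInst, lead_encodeInst, List.length_replicate]
  have h := length_flatten_of_length _ (length_of_mem_rowsOf x.E)
  have h2 : (rowsOf x.E).length = x.n := by simp [rowsOf]
  rw [h2] at h
  rw [← h, List.drop_left]

/-- the string function computed by the program -/
def solver (k : ℕ) (w : List Bool) : List Bool :=
  answerStr (moveList k (idxOf w) (matOf w)) (idxOf w)
    (basis (moveList k (idxOf w) (matOf w)) (idxOf w)) (posOf w)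

theorem PT_solver (k : ℕ) : PT (solver k) :=
  PT.answer (PT_moveList k PT_idxOf PT_matOf) PT_idxOf PT_posOf

theorem solver_encodeInst (k : ℕ) (x : Inst) : ∃ a : Answer x.n, Correct k x a ∧
    encodeAnswer a = solver k (encodeInst x) := by
  rw [solver, idxOf_encodeInst, matOf_encodeInst, posOf_encodeInst]
  exact exists_answer k x

theorem main_theorem (k : ℕ) :
    ∃ f : ∀ x : Inst, Answer x.n, (∀ x, Correct k x (f x)) ∧
      Nonempty (Turing.TM2ComputableInPolyTime encodeInst
        (fun a : (Σ n : ℕ, Answer n) => encodeAnswer a.2) (fun x => ⟨x.n, f x⟩)) := by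
  choose f hf hf' using solver_encodeInst k
  refine ⟨f, hf, tmStr ?_⟩
  have h := FP.reindex (PT_solver k) encodeInst
  refine h.congr fun x => ?_
  rw [hf']

end Pool.Agent.KAnnih
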