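import Pool.Agent.Lib.KAnnih.Algo
import Pool.Agent.Lib.KAnnih.Bridge
import Pool.Agent.Lib.PolyTime.Subsets

/-!
# The list of all moves, and correctness of the algorithm
-/

set_option autoImplicit false

namespace Pool.Agent.KAnnih

open Pool.Agent.PolyTime

variable {n : ℕ}

/-- the list of the followers, given the row of the adjacency matrix -/
def fol (idx : List ℕ) (row : List Bool) : List ℕ := idx.filter fun v => bit row v

/-- the list of all moves -/
def moveList (k : ℕ) (idx : List ℕ) (rows : List (List Bool)) : List Mov :=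
  idx.flatMap fun u => (tsubs k (fol idx (rows.getD u []))).map fun T =>
    (u, vecOf idx.length (u :: T), vecOf idx.length T)

/-- the finite set given by a list -/
def fs (n : ℕ) (T : List ℕ) : Finset (Fin n) := Finset.univ.filter fun i => i.val ∈ T

theorem mem_fs {T : List ℕ} {i : Fin n} : i ∈ fs n T ↔ i.val ∈ T := by simp [fs]

theorem card_fs {T : List ℕ} (hT : T.Nodup) (hlt : ∀ v ∈ T, v < n) :
    (fs n T).card = T.length := by
  have h : (fs n T).map Fin.valEmbedding = T.toFinset := by
    ext v
    simp only [Finset.mem_map, mem_fs, Fin.valEmbedding_apply, List.mem_toFinset]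
    constructor
    · rintro ⟨i, hi, rfl⟩; exact hi
    · intro hv; exact ⟨⟨v, hlt v hv⟩, hv, rfl⟩
  rw [← Finset.card_map Fin.valEmbedding, h, List.toFinset_card_of_nodup hT]

theorem length_vecOf (l : List ℕ) : (vecOf n l).length = n := by simp [vecOf]

theorem bit_vecOf (l : List ℕ) (i : Fin n) :
    bit (vecOf n l) i = decide (l.count i.val % 2 = 1) := by
  simp [bit, vecOf, List.getD_eq_getElem?_getD]

theorem vecOf_eq_vec {T : List ℕ} (hT : T.Nodup) : vecOf n T = vec (fs n T) := by
  apply List.ext_getElem
  · simp [vecOf, vec]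
  · intro i h1 h2
    have hi : i < n := by simpa [vecOf] using h1
    simp only [vecOf, List.getElem_map, List.getElem_range, vec, List.getElem_ofFn, mem_fs]
    by_cases h : i ∈ T
    · rw [List.count_eq_one_of_mem hT h]; simp [h]
    · rw [List.count_eq_zero_of_not_mem h]; simp [h]

theorem toV_vecOf_cons {T : List ℕ} (hT : T.Nodup) (u : Fin n) :
    toV n (vecOf n (u.val :: T)) = chi {u} + chi (fs n T) := by
  funext i
  rw [toV, bit_vecOf, Pi.add_apply, chi, chi, List.count_cons]
  simp only [Finset.mem_singleton, mem_fs]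
  by_cases h : i.val ∈ T
  · rw [List.count_eq_one_of_mem hT h]
    by_cases h1 : i = u
    · subst h1; simp [h]; decide
    · have h2 : ¬ u.val = i.val := fun h => h1 (Fin.ext h.symm)
      simp [h, h1, h2]
  · rw [List.count_eq_zero_of_not_mem h]
    by_cases h1 : i = u
    · subst h1; simp [h]
    · have h2 : ¬ u.val = i.val := fun h => h1 (Fin.ext h.symm)
      simp [h, h1, h2]

section

variable (E : Fin n → Fin n → Bool)

/-- the rows of the adjacency matrix -/
def rowsOf : List (List Bool) := List.ofFn fun u => List.ofFn fun v => E u v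

theorem bit_rowsOf (u v : Fin n) : bit ((rowsOf E).getD u.val []) v.val = E u v := by
  simp [bit, rowsOf, List.getD_eq_getElem?_getD]

theorem mem_fol (u : Fin n) (v : ℕ) :
    v ∈ fol (List.range n) ((rowsOf E).getD u.val []) ↔ ∃ h : v < n, E u ⟨v, h⟩ = true := by
  rw [fol, List.mem_filter, List.mem_range]
  constructor
  · rintro ⟨h, h1⟩
    refine ⟨h, ?_⟩
    rw [← bit_rowsOf E u ⟨v, h⟩]
    exact h1
  · rintro ⟨h, h1⟩
    refine ⟨h, ?_⟩
    rw [← bit_rowsOf E u ⟨v, h⟩] at h1
    exact h1

theorem fol_nodup (u : Fin n) : (fol (List.range n) ((rowsOf E).getD u.val [])).Nodup :=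
  List.Nodup.filter _ List.nodup_range

theorem fs_fol (u : Fin n) :
    fs n (fol (List.range n) ((rowsOf E).getD u.val [])) = followers E u := by
  ext v
  rw [mem_fs, mem_fol, followers, Finset.mem_filter]
  simp

theorem length_fol (u : Fin n) :
    (fol (List.range n) ((rowsOf E).getD u.val [])).length = (followers E u).card := by
  rw [← fs_fol, card_fs (fol_nodup E u)]
  intro v hv
  exact ((mem_fol E u v).mp hv).choose

/-- the list of moves describes the game -/
theorem mem_moveList (k : ℕ) (p : Mov) :
    p ∈ moveList k (List.range n) (rowsOf E) ↔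
      ∃ (u : Fin n) (T : Finset (Fin n)), T ⊆ followers E u ∧
        T.card = min k (followers E u).card ∧ p.1 = u.val ∧ p.2.2 = vec T ∧
        p.2.1.length = n ∧ toV n p.2.1 = chi {u} + chi T := by
  rw [moveList, List.mem_flatMap]
  simp only [List.mem_map, mem_tsubs, List.length_range]
  constructor
  · rintro ⟨u, hu, T, ⟨hT, hlen⟩, rfl⟩
    rw [List.mem_range] at hu
    have hu' : u = (⟨u, hu⟩ : Fin n).val := rfl
    rw [hu'] at hT hlen ⊢
    have hnd : T.Nodup := (fol_nodup E ⟨u, hu⟩).sublist hT
    have hlt : ∀ v ∈ T, v < n := fun v hv => ((mem_fol E _ v).mp (hT.subset hv)).choose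
    refine ⟨⟨u, hu⟩, fs n T, ?_, ?_, rfl, vecOf_eq_vec hnd, length_vecOf _, ?_⟩
    · rw [← fs_fol]
      intro v hv
      rw [mem_fs] at hv ⊢
      exact hT.subset hv
    · rw [card_fs hnd hlt, hlen, length_fol]
    · exact toV_vecOf_cons hnd _
  · rintro ⟨u, T, hT, hc, h1, h2, h3, h4⟩
    have hsub : ((List.range n).filter fun v => decide (∃ h : v < n, (⟨v, h⟩ : Fin n) ∈ T)).Sublist
        (fol (List.range n) ((rowsOf E).getD u.val [])) := by
      have e : (List.range n).filter (fun v => decide (∃ h : v < n, (⟨v, h⟩ : Fin n) ∈ T)) =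
          (fol (List.range n) ((rowsOf E).getD u.val [])).filter
            (fun v => decide (∃ h : v < n, (⟨v, h⟩ : Fin n) ∈ T)) := by
        rw [fol, List.filter_filter]
        apply List.filter_congr
        intro v hv
        rw [List.mem_range] at hv
        by_cases h : (∃ h : v < n, (⟨v, h⟩ : Fin n) ∈ T)
        · obtain ⟨h', h''⟩ := h
          have := hT h''
          rw [followers, Finset.mem_filter] at this
          have h5 := bit_rowsOf E u ⟨v, hv⟩
          simp only at h5
          rw [h5, this.2]
          simp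
        · simp [h]
      rw [e]
      exact List.filter_sublist
    set L := (List.range n).filter fun v => decide (∃ h : v < n, (⟨v, h⟩ : Fin n) ∈ T) with hL
    have hnd : L.Nodup := List.Nodup.filter _ List.nodup_range
    have hfs : fs n L = T := by
      ext v
      rw [mem_fs, hL, List.mem_filter]
      simp
    have hlt : ∀ v ∈ L, v < n := fun v hv => List.mem_range.mp (List.mem_filter.mp hv).1
    refine ⟨u.val, List.mem_range.mpr u.isLt, L, ⟨hsub, ?_⟩, ?_⟩
    · rw [← card_fs hnd hlt, hfs, length_fol, hc]
    · have e1 : vecOf n L = vec T := by rw [vecOf_eq_vec hnd, hfs]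
      have e2 : vecOf n (u.val :: L) = p.2.1 := by
        refine toV_injective (length_vecOf _) h3 ?_
        rw [toV_vecOf_cons hnd, hfs, h4]
      rw [e1, e2, ← h1, ← h2]

theorem describes (k : ℕ) :
    Describes n (moveList k (List.range n) (rowsOf E)) (Mv k E) := by
  refine ⟨fun p hp => ?_, fun p hp => ?_, fun u m => ?_⟩
  · obtain ⟨u, T, -, -, h, -⟩ := (mem_moveList E k p).mp hp
    rw [h]; exact u.isLt
  · obtain ⟨u, T, -, -, -, -, h, -⟩ := (mem_moveList E k p).mp hp
    exact h
  · constructor
    · rintro ⟨T, hT, hc, rfl⟩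
      obtain ⟨l, hl, hlV⟩ := toV_surjective (chi {u} + chi T)
      exact ⟨(u.val, l, vec T), (mem_moveList E k _).mpr ⟨u, T, hT, hc, rfl, rfl, hl, hlV⟩,
        rfl, hlV⟩
    · rintro ⟨p, hp, hpu, rfl⟩
      obtain ⟨u', T, hT, hc, h1, -, -, h2⟩ := (mem_moveList E k p).mp hp
      have : u' = u := Fin.ext (by rw [← h1, hpu])
      subst this
      exact ⟨T, hT, hc, h2⟩

end

theorem length_vec (S : Finset (Fin n)) : (vec S).length = n := by simp [vec]

theorem bit_vec (S : Finset (Fin n)) (i : Fin n) : bit (vec S) i = decide (i ∈ S) := by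
  simp [bit, vec, List.getD_eq_getElem?_getD]

theorem toV_vec (S : Finset (Fin n)) : toV n (vec S) = chi S := by
  funext i
  rw [toV, bit_vec, chi]
  simp

theorem map_range_eq_vec (u : Fin n) :
    (List.range n).map (fun i => decide (i = u.val)) = vec {u} := by
  apply List.ext_getElem
  · simp [vec]
  · intro i h1 h2
    have hi : i < n := by simpa using h1
    simp [vec, Fin.ext_iff]

/-- Correctness of the algorithm. -/
theorem exists_answer (k : ℕ) (x : Inst) : ∃ a : Answer x.n, Correct k x a ∧
    encodeAnswer a = answerStr (moveList k (List.range x.n) (rowsOf x.E)) (List.range x.n)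
      (basis (moveList k (List.range x.n) (rowsOf x.E)) (List.range x.n)) (vec x.S) := by
  obtain ⟨n, E, S⟩ := x
  simp only
  have hM := describes E k
  obtain ⟨hB, hV⟩ := basis_spec hM (Mv_nonempty k E)
  set M := moveList k (List.range n) (rowsOf E) with hMdef
  set B := basis M (List.range n) with hBdef
  -- membership tests
  have hP : ∀ v : List Bool, v.length = n →
      (inSpan B v = true ↔ LP (Mv k E) (toV n v)) := by
    intro v hv
    rw [inSpan_iff hB hv, hV]
    exact mem_V0
  have hW : ∀ v : List Bool, v.length = n →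
      ((winMove M B v).isSome = true ↔ Win (Mv k E) (toV n v)) := by
    intro v hv
    rw [winMove, List.find?_isSome]
    constructor
    · rintro ⟨p, hp, h⟩
      rw [Bool.and_eq_true, hP _ (length_xorV hv (hM.len p hp)),
        toV_xorV hv (hM.len p hp)] at h
      exact ⟨⟨p.1, hM.lt p hp⟩, toV n p.2.1, toV_apply_ne_zero.mpr h.1,
        (hM.mem _ _).mpr ⟨p, hp, rfl, rfl⟩, h.2⟩
    · rintro ⟨u, m, hu, hm, h⟩
      obtain ⟨p, hp, hpu, rfl⟩ := (hM.mem _ _).mp hm
      refine ⟨p, hp, ?_⟩
      rw [Bool.and_eq_true, hP _ (length_xorV hv (hM.len p hp)), toV_xorV hv (hM.len p hp), hpu]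
      exact ⟨toV_apply_ne_zero.mp hu, h⟩
  -- turning a move of the list into a move of the game
  have hmove : ∀ p ∈ M, bit (vec S) p.1 = true → ∃ (u : Fin n) (T S' : Finset (Fin n)),
      IsMove k E S u T S' ∧ chi S' = toV n (xorV (vec S) p.2.1) ∧ p.1 = u.val ∧ p.2.2 = vec T := by
    intro p hp hbit
    obtain ⟨u, T, hT, hc, h1, h2, h3, h4⟩ := (mem_moveList E k p).mp hp
    obtain ⟨S', hS'⟩ := chi_surjective (chi S + (chi {u} + chi T))
    have hu : u ∈ S := by
      rw [h1, bit_vec] at hbit
      simpa using hbit
    refine ⟨u, T, S', isMove_of_chi hu hT hc hS', ?_, h1, h2⟩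
    rw [hS', toV_xorV (length_vec S) h3, toV_vec, h4]
  cases hs : inSpan B (vec S) with
  | true =>
    refine ⟨Answer.P, ?_, ?_⟩
    · show IsP k E S
      rw [isP_iff, ← toV_vec, ← hP _ (length_vec S)]
      exact hs
    · rw [answerStr, hs]; rfl
  | false =>
    have hnP : ¬ IsP k E S := by
      rw [isP_iff, ← toV_vec, ← hP _ (length_vec S), hs]
      simp
    cases hw : winMove M B (vec S) with
    | some p =>
      have hpM : p ∈ M := List.mem_of_find?_eq_some hw
      have hp := List.find?_some hw
      rw [Bool.and_eq_true] at hp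
      obtain ⟨u, T, S', hmv, hchi, h1, h2⟩ := hmove p hpM hp.1
      have hS' : IsP k E S' := by
        rw [isP_iff, hchi, ← hP _ (length_xorV (length_vec S) (hM.len p hpM))]
        exact hp.2
      refine ⟨Answer.N u T, ?_, ?_⟩
      · exact ⟨⟨S', ⟨u, T, hmv⟩, hS'⟩, S', hmv, hS'⟩
      · rw [answerStr, hs, cond_false, hw]
        simp only [encodeAnswer]
        rw [h1, h2, map_range_eq_vec]
    | none =>
      have hnN : ¬ IsN k E S := by
        rw [isN_iff, ← toV_vec, ← hW _ (length_vec S), hw]
        simp
      -- there is an option of class O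
      have hex : (drawMove M B (vec S)).isSome = true := by
        by_contra hcon
        apply hnP
        rw [isP_iff]
        refine LP.of_win fun u hu m hm => ?_
        obtain ⟨p, hp, hpu, rfl⟩ := (hM.mem _ _).mp hm
        rw [drawMove, List.find?_isSome] at hcon
        push Not at hcon
        have h1 := hcon p hp
        have hlen := length_xorV (length_vec S) (hM.len p hp)
        have h2 : bit (vec S) p.1 = true := by
          rw [hpu, bit_vec]
          simpa using chi_ne_zero.mp hu
        by_contra hnw
        rw [← toV_vec, ← toV_xorV (length_vec S) (hM.len p hp)] at hnw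
        apply h1
        have h3 : inSpan B (xorV (vec S) p.2.1) = false := by
          rw [← Bool.not_eq_true, hP _ hlen]
          intro hlp
          apply hnN
          rw [isN_iff]
          refine ⟨u, toV n p.2.1, hu, hm, ?_⟩
          rw [← toV_vec, ← toV_xorV (length_vec S) (hM.len p hp)]
          exact hlp
        have h4 : (winMove M B (xorV (vec S) p.2.1)).isSome = false := by
          rw [← Bool.not_eq_true, hW _ hlen]
          exact hnw
        rw [h2, h3, h4]
        rfl
      obtain ⟨p, hd⟩ := Option.isSome_iff_exists.mp hex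
      have hpM : p ∈ M := List.mem_of_find?_eq_some hd
      have hp := List.find?_some hd
      rw [Bool.and_eq_true, Bool.and_eq_true, Bool.not_eq_true', Bool.not_eq_true'] at hp
      obtain ⟨⟨hp1, hp2⟩, hp3⟩ := hp
      obtain ⟨u, T, S', hmv, hchi, h1, h2⟩ := hmove p hpM hp1
      have hlen := length_xorV (length_vec S) (hM.len p hpM)
      have hS' : IsO k E S' := by
        refine ⟨?_, ?_⟩
        · rw [isP_iff, hchi, ← hP _ hlen, hp2]; simp
        · rw [isN_iff, hchi, ← hW _ hlen, hp3]; simp
      refine ⟨Answer.O u T, ⟨⟨hnP, hnN⟩, S', hmv, hS'⟩, ?_⟩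
      rw [answerStr, hs, cond_false, hw]
      simp only [hd, encodeAnswer]
      rw [h1, h2, map_range_eq_vec]

end Pool.Agent.KAnnih
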