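import Mathlib

/-!
# Linear theory of annihilation-like games

Positions are vectors `x : ι → ZMod 2` (the tokens are at the `u` with `x u ≠ 0`). For every vertex
`u` there is a set `Mv u` of move vectors; a move from `x` picks `u` with `x u ≠ 0` and `m ∈ Mv u`
and leads to `x + m`. The positions lost for the player to move form a linear subspace, and the
outcome of a position depends only on its class modulo this subspace.
-/

set_option autoImplicit false

namespace Pool.Agent.KAnnih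

variable {ι : Type*} (Mv : ι → Set (ι → ZMod 2))

/-- `x` is lost for the player to move within `r` double moves -/
def Lost : ℕ → (ι → ZMod 2) → Prop
  | 0, x => ∀ u, x u ≠ 0 → ∀ m ∈ Mv u, False
  | r + 1, x => ∀ u, x u ≠ 0 → ∀ m ∈ Mv u,
      ∃ u' m', (x + m) u' ≠ 0 ∧ m' ∈ Mv u' ∧ Lost r (x + m + m')

/-- the player to move loses -/
def LP (x : ι → ZMod 2) : Prop := ∃ r, Lost Mv r x

/-- the player to move wins -/
def Win (x : ι → ZMod 2) : Prop := ∃ u m, x u ≠ 0 ∧ m ∈ Mv u ∧ LP Mv (x + m)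

variable {Mv}

theorem add_self' (x : ι → ZMod 2) : x + x = 0 := by
  funext i
  exact CharTwo.add_self_eq_zero (x i)

theorem add_add_self (x y : ι → ZMod 2) : x + y + y = x := by
  rw [add_assoc, add_self', add_zero]

theorem Lost.succ {r : ℕ} : ∀ {x : ι → ZMod 2}, Lost Mv r x → Lost Mv (r + 1) x := by
  induction r with
  | zero => intro x h u hu m hm; exact (h u hu m hm).elim
  | succ r ih =>
    intro x h u hu m hm
    obtain ⟨u', m', h1, h2, h3⟩ := h u hu m hm
    exact ⟨u', m', h1, h2, ih h3⟩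

theorem Lost.mono {r s : ℕ} (hrs : r ≤ s) {x : ι → ZMod 2} (h : Lost Mv r x) : Lost Mv s x := by
  induction hrs with
  | refl => exact h
  | step _ ih => exact ih.succ

section finite

variable [Finite ι]

theorem exists_uniform (Mv : ι → Set (ι → ZMod 2)) : ∃ R, ∀ y, LP Mv y → Lost Mv R y := by
  classical
  have : Fintype ι := Fintype.ofFinite ι
  have h : ∀ y : ι → ZMod 2, ∃ r, LP Mv y → Lost Mv r y := by
    intro y
    by_cases hy : LP Mv y
    · obtain ⟨r, hr⟩ := hy
      exact ⟨r, fun _ => hr⟩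
    · exact ⟨0, fun h => absurd h hy⟩
  choose r hr using h
  exact ⟨Finset.univ.sup r, fun y hy => (hr y hy).mono (Finset.le_sup (Finset.mem_univ y))⟩

theorem LP.of_win {x : ι → ZMod 2} (h : ∀ u, x u ≠ 0 → ∀ m ∈ Mv u, Win Mv (x + m)) :
    LP Mv x := by
  obtain ⟨R, hR⟩ := exists_uniform Mv
  refine ⟨R + 1, fun u hu m hm => ?_⟩
  obtain ⟨u', m', h1, h2, h3⟩ := h u hu m hm
  exact ⟨u', m', h1, h2, hR _ h3⟩

theorem LP.win {x : ι → ZMod 2} (h : LP Mv x) {u : ι} (hu : x u ≠ 0) {m : ι → ZMod 2}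
    (hm : m ∈ Mv u) : Win Mv (x + m) := by
  obtain ⟨r, hr⟩ := h
  obtain ⟨u', m', h1, h2, h3⟩ := hr.succ u hu m hm
  exact ⟨u', m', h1, h2, r, h3⟩

theorem main (s : ℕ) :
    (∀ a b, a + b ≤ s → ∀ x y, Lost Mv a x → Lost Mv b y → LP Mv (x + y)) ∧
    (∀ a b, a + b ≤ s → ∀ x y u m, Lost Mv a x → Lost Mv b y → (x + m) u ≠ 0 → m ∈ Mv u →
      Win Mv (x + m + y)) := by
  have key : ∀ s, (∀ a b, a + b ≤ s → ∀ x y, Lost Mv a x → Lost Mv b y → LP Mv (x + y)) →
      (∀ a b, a + b < s → ∀ x y u m, Lost Mv a x → Lost Mv b y → (x + m) u ≠ 0 → m ∈ Mv u →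
        Win Mv (x + m + y)) →
      (∀ a b, a + b ≤ s → ∀ x y u m, Lost Mv a x → Lost Mv b y → (x + m) u ≠ 0 → m ∈ Mv u →
        Win Mv (x + m + y)) := by
    intro s h1 h2 a b hab x y u m hx hy hu hm
    by_cases hc : (x + m + y) u ≠ 0
    · refine ⟨u, m, hc, hm, ?_⟩
      have : x + m + y + m = x + y := by
        rw [add_right_comm x m y, add_add_self]
      rw [this]
      exact h1 a b hab x y hx hy
    · have hyu : y u ≠ 0 := by
        intro h0
        apply hc
        rw [Pi.add_apply, h0, add_zero]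
        exact hu
      cases b with
      | zero => exact (hy u hyu m hm).elim
      | succ b =>
        obtain ⟨u', m', h3, h4, h5⟩ := hy u hyu m hm
        have e1 : y + m + m' + m' = y + m := add_add_self _ _
        have := h2 b a (by omega) (y + m + m') x u' m' h5 hx (by rw [e1]; exact h3) h4
        rw [e1] at this
        have e2 : y + m + x = x + m + y := by abel
        rwa [e2] at this
  induction s with
  | zero =>
    have h1 : ∀ a b, a + b ≤ 0 → ∀ x y, Lost Mv a x → Lost Mv b y → LP Mv (x + y) := by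
      intro a b hab x y hx hy
      obtain rfl : a = 0 := by omega
      obtain rfl : b = 0 := by omega
      refine ⟨0, fun u hu m hm => ?_⟩
      by_cases hxu : x u ≠ 0
      · exact hx u hxu m hm
      · push Not at hxu
        rw [Pi.add_apply, hxu, zero_add] at hu
        exact hy u hu m hm
    exact ⟨h1, key 0 h1 (fun a b hab => absurd hab (by omega))⟩
  | succ s ih =>
    obtain ⟨_, ih2⟩ := ih
    have h1 : ∀ a b, a + b ≤ s + 1 → ∀ x y, Lost Mv a x → Lost Mv b y → LP Mv (x + y) := by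
      intro a b hab x y hx hy
      apply LP.of_win
      intro u hu m hm
      by_cases hxu : x u ≠ 0
      · cases a with
        | zero => exact (hx u hxu m hm).elim
        | succ a =>
          obtain ⟨u', m', h3, h4, h5⟩ := hx u hxu m hm
          have e1 : x + m + m' + m' = x + m := add_add_self _ _
          have := ih2 a b (by omega) (x + m + m') y u' m' h5 hy (by rw [e1]; exact h3) h4
          rw [e1] at this
          have e2 : x + m + y = x + y + m := by abel
          rwa [e2] at this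
      · push Not at hxu
        rw [Pi.add_apply, hxu, zero_add] at hu
        cases b with
        | zero => exact (hy u hu m hm).elim
        | succ b =>
          obtain ⟨u', m', h3, h4, h5⟩ := hy u hu m hm
          have e1 : y + m + m' + m' = y + m := add_add_self _ _
          have := ih2 b a (by omega) (y + m + m') x u' m' h5 hx (by rw [e1]; exact h3) h4
          rw [e1] at this
          have e2 : y + m + x = x + y + m := by abel
          rwa [e2] at this
    exact ⟨h1, key (s + 1) h1 (fun a b hab => ih2 a b (by omega))⟩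

theorem LP.add {x y : ι → ZMod 2} (hx : LP Mv x) (hy : LP Mv y) : LP Mv (x + y) := by
  obtain ⟨a, ha⟩ := hx
  obtain ⟨b, hb⟩ := hy
  exact (main (a + b)).1 a b le_rfl x y ha hb

theorem Win.add {x y : ι → ZMod 2} (hx : Win Mv x) (hy : LP Mv y) : Win Mv (x + y) := by
  obtain ⟨u, m, hu, hm, a, ha⟩ := hx
  obtain ⟨b, hb⟩ := hy
  have := (main (a + b)).2 a b le_rfl (x + m) y u m ha hb (by rw [add_add_self]; exact hu) hm
  rwa [add_add_self] at this

theorem LP.zero : LP Mv (0 : ι → ZMod 2) := ⟨0, fun _ hu => absurd rfl hu⟩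

theorem not_lp_of_win {x : ι → ZMod 2} (h : Win Mv x) : ¬ LP Mv x := by
  rintro ⟨r, hr⟩
  induction r generalizing x with
  | zero =>
    obtain ⟨u, m, hu, hm, _⟩ := h
    exact hr u hu m hm
  | succ r ih =>
    obtain ⟨u, m, hu, hm, h1⟩ := h
    obtain ⟨u', m', h2, h3, h4⟩ := hr u hu m hm
    have hw : Win Mv (x + m + m') := h1.win h2 h3
    exact ih hw h4

variable (Mv) in
/-- the subspace of the positions lost for the player to move -/
def V0 : Submodule (ZMod 2) (ι → ZMod 2) where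
  carrier := {x | LP Mv x}
  zero_mem' := LP.zero
  add_mem' := fun hx hy => LP.add hx hy
  smul_mem' := by
    intro c x hx
    have : c = 0 ∨ c = 1 := by revert c; decide
    rcases this with rfl | rfl
    · rw [zero_smul]; exact LP.zero
    · rw [one_smul]; exact hx

theorem mem_V0 {x : ι → ZMod 2} : x ∈ V0 Mv ↔ LP Mv x := Iff.rfl

variable (Mv) in
/-- the positions recognized as won for the player to move with the help of `W ≤ V0` -/
def NW (W : Submodule (ZMod 2) (ι → ZMod 2)) : Set (ι → ZMod 2) :=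
  {y | ∃ u, ∃ m ∈ Mv u, (∃ w ∈ W, (m + w) u ≠ 0) ∧ y + m ∈ W}

theorem win_of_mem_NW {W : Submodule (ZMod 2) (ι → ZMod 2)} (hW : W ≤ V0 Mv) {y : ι → ZMod 2}
    (hy : y ∈ NW Mv W) : Win Mv y := by
  obtain ⟨u, m, hm, ⟨w, hw, hu⟩, hym⟩ := hy
  have h1 : Win Mv (m + w) := by
    refine ⟨u, m, hu, hm, ?_⟩
    have : m + w + m = w := by rw [add_comm m w, add_add_self]
    rw [this]
    exact hW hw
  have h2 := h1.add (hW (W.add_mem hym hw))
  have : m + w + (y + m + w) = y := by
    have e : m + w + (y + m + w) = y + (m + m) + (w + w) := by abel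
    rw [e, add_self', add_self', add_zero, add_zero]
  rwa [this] at h2

theorem mem_NW_add {W : Submodule (ZMod 2) (ι → ZMod 2)} {y w : ι → ZMod 2} (hw : w ∈ W)
    (hy : y ∈ NW Mv W) : y + w ∈ NW Mv W := by
  obtain ⟨u, m, hm, h, hym⟩ := hy
  refine ⟨u, m, hm, h, ?_⟩
  rw [add_right_comm]
  exact W.add_mem hym hw

variable (Mv) in
/-- all options of `x` are recognized as won for the next player -/
def Cond (W : Submodule (ZMod 2) (ι → ZMod 2)) (x : ι → ZMod 2) : Prop :=
  ∀ u, x u ≠ 0 → ∀ m ∈ Mv u, x + m ∈ NW Mv W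

theorem lp_of_cond {W : Submodule (ZMod 2) (ι → ZMod 2)} (hW : W ≤ V0 Mv) {x : ι → ZMod 2}
    (hx : Cond Mv W x) : LP Mv x :=
  LP.of_win fun u hu m hm => win_of_mem_NW hW (hx u hu m hm)

theorem exists_cond {W : Submodule (ZMod 2) (ι → ZMod 2)} {x : ι → ZMod 2}
    (hx : LP Mv x) (hxW : x ∉ W) : ∃ x, x ∉ W ∧ Cond Mv W x := by
  classical
  have hex : ∃ r, ∃ x, x ∉ W ∧ Lost Mv r x := by
    obtain ⟨r, hr⟩ := hx
    exact ⟨r, x, hxW, hr⟩
  obtain ⟨y, hyW, hy⟩ := Nat.find_spec hex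
  refine ⟨y, hyW, fun u hu m hm => ?_⟩
  cases hr : Nat.find hex with
  | zero =>
    rw [hr] at hy
    exact (hy u hu m hm).elim
  | succ r =>
    rw [hr] at hy
    obtain ⟨u', m', h1, h2, h3⟩ := hy u hu m hm
    have h4 : y + m + m' ∈ W := by
      by_contra hcon
      exact Nat.find_min hex (by rw [hr]; exact Nat.lt_succ_self r) ⟨_, hcon, h3⟩
    refine ⟨u', m', h2, ⟨y + m + m', h4, ?_⟩, h4⟩
    have : m' + (y + m + m') = y + m := by rw [add_comm, add_add_self]
    rw [this]
    exact h1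

theorem exists_candidate {W : Submodule (ZMod 2) (ι → ZMod 2)}
    (hne : ∀ u, (Mv u).Nonempty) (hW : W ≤ V0 Mv) (hW' : W ≠ V0 Mv) :
    ∃ u₁ u₂, ∃ m₁ ∈ Mv u₁, ∃ m₂ ∈ Mv u₂, m₁ + m₂ ∉ W ∧
      ∃ w ∈ W, ∀ u, (m₁ + m₂ + w) u ≠ 0 → ∀ m ∈ Mv u, m₁ + m₂ + m ∈ NW Mv W := by
  obtain ⟨x₀, hx₀, hx₀W⟩ := SetLike.exists_of_lt (lt_of_le_of_ne hW hW')
  obtain ⟨x, hxW, hx⟩ := exists_cond hx₀ hx₀W
  have hx0 : x ≠ 0 := by
    rintro rfl
    exact hxW W.zero_mem
  obtain ⟨u₁, hu₁⟩ := Function.ne_iff.mp hx0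
  obtain ⟨m₁, hm₁⟩ := hne u₁
  obtain ⟨u₂, m₂, hm₂, -, h12⟩ := hx u₁ hu₁ m₁ hm₁
  have e : m₁ + m₂ + (x + m₁ + m₂) = x := by
    have e : m₁ + m₂ + (x + m₁ + m₂) = x + (m₁ + m₁) + (m₂ + m₂) := by abel
    rw [e, add_self', add_self', add_zero, add_zero]
  refine ⟨u₁, u₂, m₁, hm₁, m₂, hm₂, fun hcon => ?_, x + m₁ + m₂, h12, fun u hu m hm => ?_⟩
  · apply hxW
    have := W.add_mem hcon h12
    rwa [e] at this
  · rw [e] at hu
    have h1 := mem_NW_add h12 (hx u hu m hm)
    have e2 : x + m + (x + m₁ + m₂) = m₁ + m₂ + m := by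
      have e : x + m + (x + m₁ + m₂) = m₁ + m₂ + m + (x + x) := by abel
      rw [e, add_self', add_zero]
    rwa [e2] at h1

theorem lp_of_candidate {W : Submodule (ZMod 2) (ι → ZMod 2)} (hW : W ≤ V0 Mv)
    {z w : ι → ZMod 2} (hw : w ∈ W)
    (h : ∀ u, (z + w) u ≠ 0 → ∀ m ∈ Mv u, z + m ∈ NW Mv W) : LP Mv (z + w) := by
  apply lp_of_cond hW
  intro u hu m hm
  have := mem_NW_add hw (h u hu m hm)
  rwa [add_right_comm] at this

end finite

end Pool.Agent.KAnnih
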